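import Pool.Agent.R480.EU.Few
import Pool.Agent.R480.EU.Euler

/-! # For almost all primes the E-irregular indices are sparse

Let `E k` be the Euler number `E_{2k}`. A prime `p` is E-regular if it divides none of the numbers `E m`,
`1 ≤ m ≤ (p - 3) / 2`. For almost all primes `p` the number of the `m ≤ K` with `p ∣ E m` is, for all `K` at
the same time, at most `ψ(p) (K² log p / p)^{1 + η}`; here `η > 0` and `ψ → ∞` are arbitrary. In particular
almost all primes divide none of the `E_{2m}` with `1 ≤ m ≤ √(p / log p) / ψ(p)`. -/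

open Filter Topology

namespace Pool.Agent.Results.MP_fb7e93_nt.SparseEIrregular

/-- the number of `m` with `1 ≤ m ≤ K` such that `p` divides `E m` -/
def irregularCount (E : ℕ → ℤ) (p K : ℕ) : ℕ :=
  ((Finset.Icc 1 K).filter (fun m => (p : ℤ) ∣ E m)).card

lemma irr_eq (E : ℕ → ℤ) (p K : ℕ) :
    irregularCount E p K = R480.EU.irr (fun m => (E m).natAbs) p K := by
  unfold irregularCount R480.EU.irr
  congr 1
  ext m
  simp only [Finset.mem_filter, Int.natCast_dvd]

lemma density (P : ℕ → Prop)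
    (hfew : ∀ ε : ℝ, 0 < ε → ∀ᶠ X : ℕ in atTop, (({p : ℕ | p ≤ X ∧ p.Prime ∧ ¬ P p}.ncard : ℕ) : ℝ) ≤
      ε * (((Finset.range (X + 1)).filter Nat.Prime).card : ℝ)) :
    Tendsto (fun X : ℕ => (({p : ℕ | p ≤ X ∧ p.Prime ∧ P p}.ncard : ℕ) : ℝ)
          / (({p : ℕ | p ≤ X ∧ p.Prime}.ncard : ℕ) : ℝ)) atTop (𝓝 1) := by
  classical
  have hcount : ∀ X : ℕ, {p : ℕ | p ≤ X ∧ p.Prime}.ncard =
      ((Finset.range (X + 1)).filter Nat.Prime).card := by
    intro X
    rw [← Set.ncard_coe_finset]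
    congr 1
    ext p
    simp
  have hgood : ∀ (Q : ℕ → Prop) (X : ℕ), {p : ℕ | p ≤ X ∧ p.Prime ∧ Q p}.ncard =
      ((Finset.range (X + 1)).filter (fun p => p.Prime ∧ Q p)).card := by
    intro Q X
    rw [← Set.ncard_coe_finset]
    congr 1
    ext p
    simp only [Set.mem_ofPred_eq, Finset.coe_filter, Finset.mem_range, Nat.lt_succ_iff]
  have hpart : ∀ X : ℕ, ((Finset.range (X + 1)).filter (fun p => p.Prime ∧ P p)).card +
      ((Finset.range (X + 1)).filter (fun p => p.Prime ∧ ¬ P p)).card =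
      ((Finset.range (X + 1)).filter Nat.Prime).card := by
    intro X
    have := Finset.card_filter_add_card_filter_not (s := (Finset.range (X + 1)).filter Nat.Prime)
      (fun p => P p)
    rw [Finset.filter_filter, Finset.filter_filter] at this
    exact this
  rw [Metric.tendsto_atTop']
  intro ε hε
  obtain ⟨X0, hX0⟩ := (hfew (ε / 2) (by positivity)).exists_forall_of_atTop
  refine ⟨max X0 2, fun X hX => ?_⟩
  have hX1 : X0 ≤ X := le_of_lt (lt_of_le_of_lt (le_max_left _ _) hX)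
  have hX2 : 2 ≤ X := le_of_lt (lt_of_le_of_lt (le_max_right _ _) hX)
  have h1 := hX0 X hX1
  rw [hgood (fun p => ¬ P p) X] at h1
  rw [hgood P X, hcount]
  have h2 := hpart X
  set G := ((Finset.range (X + 1)).filter (fun p => p.Prime ∧ P p)).card with hG
  set Bd := ((Finset.range (X + 1)).filter (fun p => p.Prime ∧ ¬ P p)).card with hBd
  set π := ((Finset.range (X + 1)).filter Nat.Prime).card with hP
  have hPpos : 0 < π := by
    rw [hP, Finset.card_pos]
    exact ⟨2, by rw [Finset.mem_filter, Finset.mem_range]; exact ⟨by omega, Nat.prime_two⟩⟩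
  have hPr : (0 : ℝ) < π := by exact_mod_cast hPpos
  have h3 : (G : ℝ) + Bd = π := by exact_mod_cast h2
  have h1' : (Bd : ℝ) ≤ ε / 2 * π := by
    rw [hBd]
    convert h1
  rw [Real.dist_eq]
  have h4 : (G : ℝ) / π - 1 = - (Bd / π) := by
    field_simp; linarith
  rw [h4, abs_neg, abs_of_nonneg (by positivity), div_lt_iff₀ hPr]
  nlinarith

/-- Let `E k` be the Euler number `E_{2k}`. For every `η > 0` and every `ψ` tending to infinity, almost all
primes `p` (in the sense of relative density in the primes) satisfy, simultaneously for all `K`,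
`#{1 ≤ m ≤ K : p ∣ E_{2m}} ≤ ψ(p) (K² log p / p)^{1+η}`. -/
theorem result (E : ℕ → ℤ) (hE0 : E 0 = 1)
    (hE : ∀ n : ℕ, 1 ≤ n →
      ∑ k ∈ Finset.range (n + 1), ((Nat.choose (2 * n) (2 * k) : ℤ) * E k) = 0)
    (η : ℝ) (hη : 0 < η) (ψ : ℕ → ℝ) (hψ : Tendsto ψ atTop atTop) :
    Tendsto (fun X : ℕ =>
        (({p : ℕ | p ≤ X ∧ p.Prime ∧ ∀ K : ℕ,
            (irregularCount E p K : ℝ) ≤ ψ p * ((K : ℝ) ^ 2 * Real.log p / p) ^ (1 + η)}.ncard : ℕ) : ℝ)
          / (({p : ℕ | p ≤ X ∧ p.Prime}.ncard : ℕ) : ℝ))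
      atTop (𝓝 1) := by
  classical
  have hEu : R480.EU.IsEuler E := ⟨hE0, hE⟩
  refine density (fun p => ∀ K : ℕ,
    (irregularCount E p K : ℝ) ≤ ψ p * ((K : ℝ) ^ 2 * Real.log p / p) ^ (1 + η)) (fun ε hε => ?_)
  have hfew := R480.EU.few_bad (nu := fun m => (E m).natAbs) (R480.EU.natAbs_ne_zero hEu)
    (R480.EU.log_natAbs_le hEu) η hη ψ hψ ε hε
    (fun X => (Finset.range (X + 1)).filter
        (fun p => p.Prime ∧ ¬ R480.EU.good (fun m => (E m).natAbs) η ψ p)) (fun X p hp => by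
      rw [Finset.mem_filter, Finset.mem_range] at hp
      exact ⟨hp.2.1, by omega, hp.2.2⟩)
  filter_upwards [hfew] with X hX
  refine le_trans (le_of_eq ?_) hX
  rw [← Set.ncard_coe_finset]
  congr 2
  ext p
  rw [Finset.mem_coe, Finset.mem_filter, Finset.mem_range, Nat.lt_succ_iff]
  simp only [Set.mem_ofPred_eq, R480.EU.good, irr_eq]

end Pool.Agent.Results.MP_fb7e93_nt.SparseEIrregular
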